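import Pool.Agent.H381R4.BP.Stubs

/-! Project BP (helper381), task LIM (helper48): passage to the limit by dominated convergence. -/

set_option autoImplicit false
open MeasureTheory Matrix Filter Topology
open scoped ENNReal BigOperators Pointwise

namespace Pool.Agent.H48BP
open Pool.Agent.H381CM Pool.Agent.H381BP

theorem meas_pol {d : ℕ} {ι : Type} [Fintype ι] (u : ι → V d) : MeasurableSet (Pol u) := by
  unfold Pol
  rw [Set.setOf_forall]
  refine MeasurableSet.iInter (fun k => ?_)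
  refine (isClosed_le ?_ continuous_const).measurableSet
  simp only [dotProduct]
  fun_prop

theorem cont_gg {d : ℕ} {ι : Type} [Fintype ι] (u : ι → V d) (p : ι → Polynomial ℝ) :
    Continuous (gg u p) := by
  unfold gg XX
  refine continuous_finset_prod _ (fun k _ => ?_)
  refine (Polynomial.continuous _).comp ?_
  simp only [dotProduct]
  fun_prop

theorem bdd_sq {d : ℕ} (L : Set (V d)) (hL : Bornology.IsBounded L) :
    ∃ R : ℝ, 0 < R ∧ ∀ x ∈ L, ∑ i, x i ^ 2 ≤ R ^ 2 := by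
  obtain ⟨C, hC⟩ := hL.exists_norm_le
  refine ⟨((d : ℝ) + 1) * (|C| + 1), by positivity, fun x hx => ?_⟩
  have h1 : ∀ i, x i ^ 2 ≤ (|C| + 1) ^ 2 := by
    intro i
    have h2 : ‖x i‖ ≤ C := (norm_le_pi_norm x i).trans (hC x hx)
    rw [Real.norm_eq_abs] at h2
    have h3 : |x i| ≤ |C| + 1 := by linarith [le_abs_self C]
    calc x i ^ 2 = |x i| ^ 2 := (sq_abs _).symm
      _ ≤ (|C| + 1) ^ 2 := by gcongr
  calc ∑ i, x i ^ 2 ≤ ∑ _i : Fin d, (|C| + 1) ^ 2 := Finset.sum_le_sum fun i _ => h1 i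
    _ = (d : ℝ) * (|C| + 1) ^ 2 := by simp
    _ ≤ (((d : ℝ) + 1) * (|C| + 1)) ^ 2 := by
      rw [mul_pow]
      have h4 : (d : ℝ) ≤ ((d : ℝ) + 1) ^ 2 := by nlinarith [Nat.cast_nonneg (α := ℝ) d]
      gcongr

theorem T_LIM (hHME : S_HME) (hHBD : S_HBD) (hDOM : S_DOM) (hGDO : S_GDO) (hPTW : S_PTW) :
    S_LIM := by
  intro d m hm hmd ι _ u hu L hLm hLb
  obtain ⟨R, hR, hRL⟩ := bdd_sq L hLb
  obtain ⟨c, C, hc, hC, hdom⟩ := hGDO d ι u hu
  have hom : om m ≠ ⊤ := by
    unfold om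
    exact measure_closedBall_lt_top.ne
  have hhb := hHBD d m hm L R hR hRL
  have hfinx : ∀ x : V d, x ≠ 0 → hh m L x ≠ ⊤ := fun x hx =>
    ne_top_of_le_ne_top (ENNReal.mul_ne_top hom ENNReal.ofReal_ne_top) (hhb x hx)
  haveI : Nonempty (Fin d) := ⟨⟨0, by omega⟩⟩
  have hne : ∀ᵐ x : V d, x ≠ 0 := by
    rw [ae_iff]
    have : {a : V d | ¬ a ≠ 0} = {0} := by ext a; simp
    rw [this]
    exact measure_singleton _
  rw [← lintegral_indicator (meas_pol u)]
  refine tendsto_lintegral_filter_of_dominated_convergence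
    (fun x => (om m * ENNReal.ofReal (C * R ^ m)) *
      ENNReal.ofReal (Real.exp (-c * ∑ i, x i ^ 2) / (Real.sqrt (∑ i, x i ^ 2)) ^ m)) ?_ ?_ ?_ ?_
  · refine Eventually.of_forall fun j => ?_
    exact ((cont_gg u _).measurable.ennreal_ofReal).mul (hHME d m L hLm)
  · filter_upwards [eventually_ge_atTop 1] with j hj
    filter_upwards [hne] with x hx
    have h1 := hdom j hj x
    have h2 := hhb x hx
    calc ENNReal.ofReal (gg u (fun _ => bump j) x) * hh m L x
        ≤ ENNReal.ofReal (C * Real.exp (-c * ∑ i, x i ^ 2)) *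
          (om m * ENNReal.ofReal (R ^ m / (Real.sqrt (∑ i, x i ^ 2)) ^ m)) :=
          mul_le_mul' (ENNReal.ofReal_le_ofReal h1.2) h2
      _ = om m * (ENNReal.ofReal (C * Real.exp (-c * ∑ i, x i ^ 2)) *
          ENNReal.ofReal (R ^ m / (Real.sqrt (∑ i, x i ^ 2)) ^ m)) := by ring
      _ = om m * ENNReal.ofReal ((C * R ^ m) *
          (Real.exp (-c * ∑ i, x i ^ 2) / (Real.sqrt (∑ i, x i ^ 2)) ^ m)) := by
          rw [← ENNReal.ofReal_mul (by positivity)]
          congr 2
          ring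
      _ = _ := by
          rw [ENNReal.ofReal_mul (by positivity), mul_assoc]
  · rw [lintegral_const_mul' _ _ (ENNReal.mul_ne_top hom ENNReal.ofReal_ne_top)]
    exact ENNReal.mul_ne_top (ENNReal.mul_ne_top hom ENNReal.ofReal_ne_top)
      (hDOM d m hmd c hc).ne
  · filter_upwards [hne, hPTW d ι u hu] with x hx hlim
    have h1 := ENNReal.Tendsto.mul_const (ENNReal.tendsto_ofReal hlim)
      (Or.inr (hfinx x hx))
    have h2 : ENNReal.ofReal ((Pol u).indicator (fun _ => (1 : ℝ)) x) * hh m L x =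
        (Pol u).indicator (fun a => hh m L a) x := by
      by_cases hxp : x ∈ Pol u
      · rw [Set.indicator_of_mem hxp, Set.indicator_of_mem hxp, ENNReal.ofReal_one, one_mul]
      · rw [Set.indicator_of_notMem hxp, Set.indicator_of_notMem hxp, ENNReal.ofReal_zero,
          zero_mul]
    rw [h2] at h1
    exact h1

end Pool.Agent.H48BP
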